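import Pool.Agent.W945.Lc.Stm

/-! # Project LC, part TAIL: Markov's inequality for decision trees -/

set_option autoImplicit false

namespace Pool.Agent.W496.Lc.TAIL

open Finset Pool.Agent.W945.Pw Pool.Agent.W945.Lc

noncomputable section

lemma len_update {n : ℕ} (T : DT n) (i : Fin n) (hi : i ∉ T.vars) (x : Fin n → Bool) (b : Bool) :
    T.len (Function.update x i b) = T.len x := by
  induction T with
  | leaf c => rfl
  | node j l r ihl ihr =>
    simp only [DT.vars, mem_insert, mem_union, not_or] at hi
    obtain ⟨hij, hl, hr⟩ := hi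
    simp only [DT.len]
    rw [ihl hl, ihr hr, Function.update_of_ne (fun h => hij h.symm)]

lemma sum_ite {n : ℕ} (i : Fin n) (R L : (Fin n → Bool) → ℝ)
    (hR : ∀ x b, R (Function.update x i b) = R x) (hL : ∀ x b, L (Function.update x i b) = L x) :
    ∑ x : Fin n → Bool, (if x i = true then R x else L x) =
      (∑ x : Fin n → Bool, R x + ∑ x : Fin n → Bool, L x) / 2 := by
  have hinv : Function.Involutive (fun x : Fin n → Bool => Function.update x i (!(x i))) := by
    intro x
    simp
  have h1 : ∑ x : Fin n → Bool, (if x i = true then R x else L x) =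
      ∑ x : Fin n → Bool, (if x i = true then L x else R x) := by
    rw [← Equiv.sum_comp (hinv.toPerm _)]
    refine Finset.sum_congr rfl fun x _ => ?_
    simp only [Function.Involutive.coe_toPerm, Function.update_self, hR, hL]
    cases x i <;> simp
  have h2 : ∑ x : Fin n → Bool, (if x i = true then R x else L x) +
      ∑ x : Fin n → Bool, (if x i = true then L x else R x) =
      ∑ x : Fin n → Bool, R x + ∑ x : Fin n → Bool, L x := by
    rw [← Finset.sum_add_distrib, ← Finset.sum_add_distrib]
    refine Finset.sum_congr rfl fun x _ => ?_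
    split_ifs
    · ring
    · ring
  rw [← h1] at h2
  linarith

lemma sum_pow {n : ℕ} (T : DT n) (z : ℝ) (hT : T.Ok) :
    ∑ x : Fin n → Bool, z ^ T.len x = (Fintype.card (Fin n → Bool) : ℝ) * T.wt z 1 1 := by
  induction T with
  | leaf c => simp [DT.len, DT.wt]
  | node i l r ihl ihr =>
    obtain ⟨h1, h2, h3, h4⟩ := hT
    have e : ∀ x : Fin n → Bool, z ^ (DT.node i l r).len x =
        z * (if x i = true then z ^ r.len x else z ^ l.len x) := by
      intro x
      simp only [DT.len]
      split_ifs <;> ring
    simp_rw [e]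
    rw [← Finset.mul_sum, sum_ite i (fun x => z ^ r.len x) (fun x => z ^ l.len x)
      (fun x b => by rw [len_update r i h2]) (fun x b => by rw [len_update l i h1]),
      ihl h3, ihr h4]
    simp only [DT.wt]
    ring

theorem main : TAIL.Stm := by
  intro n T z K hT hz
  have hz0 : 0 < z := by linarith
  have hc : (0 : ℝ) < (Fintype.card (Fin n → Bool) : ℝ) := by
    exact_mod_cast Fintype.card_pos
  unfold avg
  rw [div_le_div_iff₀ hc (pow_pos hz0 _)]
  have h1 : T.wt z 1 1 * (Fintype.card (Fin n → Bool) : ℝ) = ∑ x : Fin n → Bool, z ^ T.len x := by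
    rw [sum_pow T z hT]; ring
  rw [h1, Finset.sum_mul]
  refine Finset.sum_le_sum fun x _ => ?_
  split_ifs with h
  · rw [one_mul]
    exact pow_le_pow_right₀ hz h
  · rw [zero_mul]
    positivity

end

end Pool.Agent.W496.Lc.TAIL
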